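import Pool.Agent.MP_66cee2_co.H75U.Prob

/-! A colouring of Euclidean space and the map that it gives. -/

namespace H75U

open Set Metric

variable {d : ℕ}

theorem dist_le_of_coord (x y : E d) {η : ℝ} (hη : 0 ≤ η) (h : ∀ i, |x i - y i| ≤ η) :
    dist x y ≤ d * η := by
  rw [EuclideanSpace.dist_eq]
  refine Real.sqrt_le_iff.2 ⟨by positivity, ?_⟩
  have h1 : ∑ i, dist (x i) (y i) ^ 2 ≤ (Finset.univ : Finset (Fin d)).card • η ^ 2 :=
    Finset.sum_le_card_nsmul _ _ _ fun i _ => by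
      rw [Real.dist_eq]
      exact pow_le_pow_left₀ (abs_nonneg _) (h i) 2
  rw [Finset.card_univ, Fintype.card_fin, nsmul_eq_mul] at h1
  refine h1.trans ?_
  rw [mul_pow]
  refine mul_le_mul_of_nonneg_right ?_ (sq_nonneg _)
  exact_mod_cast Nat.le_self_pow (by norm_num) d

theorem net (hd : 0 < d) : ∃ F : Finset (E d), F.card ≤ (2 * d ^ 3) ^ d ∧
    ∀ y : E d, (∀ i, 0 ≤ y i ∧ y i < 2 * d) → ∃ z ∈ F, dist z y ≤ 1 / d := by
  classical
  have d0 : (0 : ℝ) < d := by exact_mod_cast hd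
  refine ⟨Finset.univ.image fun k : Fin d → Fin (2 * d ^ 3) =>
    (WithLp.toLp 2 fun i => ((k i : ℕ) : ℝ) / d ^ 2 : E d), ?_, fun y hy => ?_⟩
  · refine Finset.card_image_le.trans ?_
    simp
  · have hk : ∀ i, ⌊y i * d ^ 2⌋₊ < 2 * d ^ 3 := fun i => by
      rw [Nat.floor_lt (mul_nonneg (hy i).1 (by positivity))]
      push_cast
      have := mul_lt_mul_of_pos_right (hy i).2 (show (0 : ℝ) < d ^ 2 by positivity)
      linarith
    refine ⟨_, Finset.mem_image.2 ⟨fun i => ⟨⌊y i * d ^ 2⌋₊, hk i⟩, Finset.mem_univ _, rfl⟩, ?_⟩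
    refine (dist_le_of_coord _ _ (η := 1 / d ^ 2) (by positivity) fun i => ?_).trans
      (le_of_eq (by field_simp))
    have a1 := Nat.floor_le (mul_nonneg (hy i).1 (show (0 : ℝ) ≤ d ^ 2 by positivity))
    have a2 := Nat.lt_floor_add_one (y i * d ^ 2)
    have e : ((⌊y i * d ^ 2⌋₊ : ℕ) : ℝ) / d ^ 2 - y i
        = (((⌊y i * d ^ 2⌋₊ : ℕ) : ℝ) - y i * d ^ 2) / d ^ 2 := by field_simp
    simp only
    rw [e, abs_div, abs_of_pos (show (0 : ℝ) < d ^ 2 by positivity)]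
    exact div_le_div_of_nonneg_right (abs_le.2 ⟨by linarith, by linarith⟩) (by positivity)

theorem shift (x : E d) : ∃ (s : Fin (d + 1)) (k : Fin d → ℤ), ∀ i,
    0 ≤ x i - 2 * (s : ℕ) - (2 * d + 2) * k i ∧ x i - 2 * (s : ℕ) - (2 * d + 2) * k i < 2 * d := by
  have P0 : (0 : ℝ) < 2 * d + 2 := by positivity
  have lo : ∀ t : ℝ, 0 ≤ t - (2 * d + 2) * (⌊t / (2 * d + 2)⌋ : ℤ) ∧
      t - (2 * d + 2) * (⌊t / (2 * d + 2)⌋ : ℤ) < 2 * d + 2 := fun t => by
    have a1 := (le_div_iff₀ P0).1 (Int.floor_le (t / (2 * d + 2)))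
    have a2 := (div_lt_iff₀ P0).1 (Int.lt_floor_add_one (t / (2 * d + 2)))
    constructor <;> linarith
  by_contra hc
  have h : ∀ s : Fin (d + 1), ∃ i, (2 * d : ℝ) ≤ x i - 2 * (s : ℕ)
      - (2 * d + 2) * (⌊(x i - 2 * (s : ℕ)) / (2 * d + 2)⌋ : ℤ) := by
    intro s
    by_contra h2
    push Not at h2
    exact hc ⟨s, fun i => ⌊(x i - 2 * (s : ℕ)) / (2 * d + 2)⌋, fun i => ⟨(lo _).1, h2 i⟩⟩
  choose g hg using h
  have inj : Function.Injective g := by
    intro s t hst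
    have a1 := hg s
    have a2 := hg t
    have b1 := (lo (x (g s) - 2 * (s : ℕ))).2
    have b2 := (lo (x (g t) - 2 * (t : ℕ))).2
    rw [← hst] at a2 b2
    generalize ⌊(x (g s) - 2 * (s : ℕ)) / (2 * d + 2)⌋ = a at a1 b1
    generalize ⌊(x (g s) - 2 * (t : ℕ)) / (2 * d + 2)⌋ = b at a2 b2
    have c1 : ((s : ℕ) : ℤ) - (t : ℕ) + (d + 1) * (a - b) < 1 := by
      have : (((s : ℕ) : ℝ)) - (t : ℕ) + (d + 1) * (a - b) < 1 := by linarith
      exact_mod_cast this
    have c2 : -1 < ((s : ℕ) : ℤ) - (t : ℕ) + (d + 1) * (a - b) := by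
      have : -1 < (((s : ℕ) : ℝ)) - (t : ℕ) + (d + 1) * (a - b) := by linarith
      exact_mod_cast this
    have s1 : ((s : ℕ) : ℤ) < d + 1 := by exact_mod_cast s.2
    have t1 : ((t : ℕ) : ℤ) < d + 1 := by exact_mod_cast t.2
    have s0 : (0 : ℤ) ≤ (s : ℕ) := Int.natCast_nonneg _
    have t0 : (0 : ℤ) ≤ (t : ℕ) := Int.natCast_nonneg _
    have d0 : (0 : ℤ) ≤ d := Int.natCast_nonneg _
    have ab : a - b = 0 := by
      rcases lt_trichotomy (a - b) 0 with h | h | h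
      · nlinarith
      · exact h
      · nlinarith
    rw [ab] at c1 c2
    exact Fin.ext (by omega)
  have := Fintype.card_le_of_injective g inj
  simp at this

theorem coord_le (x y : E d) (i : Fin d) : |x i - y i| ≤ dist x y := by
  rw [← Real.dist_eq]
  exact PiLp.dist_apply_le x y i

theorem colour (hd : 2 ≤ d) (N : ℕ)
    (hN : (1 - ((1 / 2 - 1 / d) / (rho + 3 / 2 * (1 / d))) ^ d / 8) ^ N
      * ((2 * d ^ 3 : ℝ)) ^ d < 1) :
    ∃ c : E d → Fin (d + 1) × Fin N, ∀ x y, dist x y = 1 → c x ≠ c y := by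
  have d2 : (2 : ℝ) ≤ d := by exact_mod_cast hd
  have h1 : (1 : ℝ) / d ≤ 1 / 2 := one_div_le_one_div_of_le two_pos d2
  have h0 : (0 : ℝ) ≤ 1 / d := by positivity
  obtain ⟨F, hF, hn⟩ := net (d := d) (by omega)
  have hr := rho_pos
  have p1 : ((1 / 2 - 1 / d) / (rho + 3 / 2 * (1 / d)) : ℝ) ^ d ≤ 1 :=
    pow_le_one₀ (div_nonneg (by linarith) (by positivity))
      ((div_le_one (by positivity)).2 (by nlinarith [rho_sq]))
  obtain ⟨m, ω, hω⟩ := cover (d := d) (by omega) (1 / d) h0 h1 F N (by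
    refine lt_of_le_of_lt (mul_le_mul_of_nonneg_left ?_ (pow_nonneg (by linarith) _)) hN
    exact_mod_cast hF)
  choose s k hs using shift (d := d)
  let y : E d → E d := fun x => WithLp.toLp 2 fun i => x i - 2 * (s x : ℕ) - (2 * d + 2) * k x i
  have hy : ∀ x, ∃ a i, Good (1 / 2) rho (ω a) (y x) i := fun x => by
    obtain ⟨z, hz, hz2⟩ := hn (y x) (hs x)
    obtain ⟨a, i, h⟩ := hω z hz
    exact ⟨a, i, h.near hz2⟩
  choose a i ha using hy
  refine ⟨fun x => (s x, a x), fun x x' h hc => ?_⟩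
  have e1 : s x = s x' := congrArg Prod.fst hc
  have e2 : a x = a x' := congrArg Prod.snd hc
  have e3 : ∀ j, k x j = k x' j := fun j => by
    have b1 := hs x j
    have b2 := hs x' j
    have b3 := abs_le.1 ((coord_le x x' j).trans h.le)
    rw [← e1] at b2
    have d0 : (0 : ℝ) < 2 * d + 2 := by positivity
    have c1 : ((k x j : ℝ) - k x' j) < 1 := by
      by_contra hh
      nlinarith [mul_le_mul_of_nonneg_left (not_lt.1 hh) d0.le]
    have c2 : ((k x' j : ℝ) - k x j) < 1 := by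
      by_contra hh
      nlinarith [mul_le_mul_of_nonneg_left (not_lt.1 hh) d0.le]
    have c3 : k x j - k x' j < 1 := by exact_mod_cast c1
    have c4 : k x' j - k x j < 1 := by exact_mod_cast c2
    omega
  have e4 : dist (y x) (y x') = dist x x' := by
    rw [dist_eq_norm, dist_eq_norm]
    congr 1
    ext j
    simp only [y, PiLp.sub_apply, e1, e3 j]
    ring
  have g1 := ha x
  rw [e2] at g1
  exact ne_one g1 (ha x') (e4.trans h)

theorem map_of {n : ℕ} (hd : 0 < d) (c : E d → Fin n) (hc : ∀ x y, dist x y = 1 → c x ≠ c y) :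
    ∃ f : E d → E n, (∀ x y, dist x y = 1 → dist (f x) (f y) = 1) ∧
      ∃ x y, dist (f x) (f y) ≠ dist x y := by
  have t0 : (0 : ℝ) ≤ √(1 / 2) := Real.sqrt_nonneg _
  have t2 : √(1 / 2 : ℝ) ^ 2 = 1 / 2 := Real.sq_sqrt (by norm_num)
  have key : ∀ a b : Fin n, a ≠ b →
      dist (EuclideanSpace.single a (√(1 / 2)) : E n) (EuclideanSpace.single b (√(1 / 2))) = 1 := by
    intro a b hab
    have : ‖(EuclideanSpace.single a (√(1 / 2)) : E n) - EuclideanSpace.single b (√(1 / 2))‖ ^ 2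
        = 1 := by
      rw [norm_sub_sq_real, EuclideanSpace.inner_single_left]
      simp only [PiLp.norm_single, Real.norm_eq_abs, sq_abs, t2, PiLp.single_apply, if_neg hab]
      norm_num
    rw [dist_eq_norm]
    exact (pow_eq_one_iff_of_nonneg (norm_nonneg _) two_ne_zero).1 this
  refine ⟨fun x => EuclideanSpace.single (c x) (√(1 / 2)), fun x y h => key _ _ (hc x y h),
    EuclideanSpace.single ⟨0, hd⟩ 2, 0, ?_⟩
  have e : dist (EuclideanSpace.single (⟨0, hd⟩ : Fin d) (2 : ℝ) : E d) 0 = 2 := by simp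
  rw [e]
  by_cases h : c (EuclideanSpace.single ⟨0, hd⟩ 2) = c 0
  · simp only [h, dist_self]
    norm_num
  · simp only [key _ _ h]
    norm_num

theorem ratio (hd : 4 ≤ d) :
    1 ≤ 729 * (2 * rho) ^ d * ((1 / 2 - 1 / d) / (rho + 3 / 2 * (1 / d)) : ℝ) ^ d := by
  have d4 : (4 : ℝ) ≤ d := by exact_mod_cast hd
  have hr := rho_pos
  have r1 : 1 ≤ rho := by nlinarith [rho_sq]
  have t0 : (0 : ℝ) < 1 / d := by positivity
  have t1 : (1 : ℝ) / d ≤ 1 / 4 := one_div_le_one_div_of_le (by norm_num) d4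
  have td : (d : ℝ) * (1 / d) = 1 := by field_simp
  generalize (1 : ℝ) / d = t at t0 t1 td
  have a1 : 1 ≤ Real.exp (6 * t) * (2 * rho * ((1 / 2 - t) / (rho + 3 / 2 * t))) := by
    have e1 : 1 + 4 * t ≤ Real.exp (4 * t) := by linarith [Real.add_one_le_exp (4 * t)]
    have e2 : 1 + 2 * t ≤ Real.exp (2 * t) := by linarith [Real.add_one_le_exp (2 * t)]
    have e3 : (1 + 4 * t) * (1 + 2 * t) ≤ Real.exp (6 * t) := by
      rw [show 6 * t = 4 * t + 2 * t by ring, Real.exp_add]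
      exact mul_le_mul e1 e2 (by positivity) (Real.exp_pos _).le
    refine le_trans ?_ (mul_le_mul_of_nonneg_right e3
      (mul_nonneg (by positivity) (div_nonneg (by linarith) (by positivity))))
    rw [← mul_div_assoc, ← mul_div_assoc, le_div_iff₀ (by positivity)]
    have e4 : 1 ≤ (1 + 4 * t) * (1 - 2 * t) := by nlinarith
    have e5 : rho + 3 / 2 * t ≤ (1 + 2 * t) * rho := by nlinarith
    have e6 : (1 + 2 * t) * rho * 1 ≤ (1 + 2 * t) * rho * ((1 + 4 * t) * (1 - 2 * t)) :=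
      mul_le_mul_of_nonneg_left e4 (by positivity)
    nlinarith
  have a2 := one_le_pow₀ a1 (n := d)
  have a3 : Real.exp (6 * t) ^ d ≤ 729 := by
    rw [← Real.exp_nat_mul, show (d : ℝ) * (6 * t) = (6 : ℕ) * 1 by
      push_cast; linear_combination 6 * td, Real.exp_nat_mul]
    refine (pow_le_pow_left₀ (Real.exp_pos _).le (Real.exp_one_lt_three).le 6).trans ?_
    norm_num
  rw [mul_pow, mul_pow] at a2
  rw [mul_assoc]
  exact a2.trans (mul_le_mul_of_nonneg_right a3 (mul_nonneg (by positivity)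
    (pow_nonneg (div_nonneg (by linarith) (by positivity)) _)))

theorem num (hd : 4 ≤ d) (N : ℕ) (hN : 30000 * (d : ℝ) ^ 2 * (2 * rho) ^ d ≤ N) :
    (1 - ((1 / 2 - 1 / d) / (rho + 3 / 2 * (1 / d))) ^ d / 8) ^ N
      * ((2 * d ^ 3 : ℝ)) ^ d < 1 := by
  have d4 : (4 : ℝ) ≤ d := by exact_mod_cast hd
  have hr := rho_pos
  have h1 : (1 : ℝ) / d ≤ 1 / 4 := one_div_le_one_div_of_le (by norm_num) d4
  have h0 : (0 : ℝ) ≤ 1 / d := by positivity
  have p0 : 0 ≤ ((1 / 2 - 1 / d) / (rho + 3 / 2 * (1 / d)) : ℝ) ^ d :=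
    pow_nonneg (div_nonneg (by linarith) (by positivity)) _
  have p1 : ((1 / 2 - 1 / d) / (rho + 3 / 2 * (1 / d)) : ℝ) ^ d ≤ 1 :=
    pow_le_one₀ (div_nonneg (by linarith) (by positivity))
      ((div_le_one (by positivity)).2 (by nlinarith [rho_sq]))
  have p2 := ratio hd
  generalize ((1 / 2 - 1 / d) / (rho + 3 / 2 * (1 / d)) : ℝ) ^ d = p at p0 p1 p2
  generalize (2 * rho) ^ d = B at hN p2
  have a1 : (1 - p / 8) ^ N ≤ Real.exp (-(p / 8)) ^ N :=
    pow_le_pow_left₀ (by linarith) (by linarith [Real.add_one_le_exp (-(p / 8))]) N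
  have a2 : (2 * d ^ 3 : ℝ) ≤ Real.exp d ^ 4 := by
    have e : (d : ℝ) ≤ Real.exp d := by linarith [Real.add_one_le_exp (d : ℝ)]
    refine le_trans ?_ (pow_le_pow_left₀ (by positivity) e 4)
    have : (0 : ℝ) ≤ d ^ 3 := by positivity
    nlinarith
  have a3 : (2 * d ^ 3 : ℝ) ^ d ≤ (Real.exp d ^ 4) ^ d := pow_le_pow_left₀ (by positivity) a2 d
  refine lt_of_le_of_lt (mul_le_mul a1 a3 (by positivity) (by positivity)) ?_
  rw [← Real.exp_nat_mul, ← Real.exp_nat_mul, ← Real.exp_nat_mul, ← Real.exp_add, Real.exp_lt_one_iff]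
  push_cast
  have a4 := mul_le_mul_of_nonneg_left hN p0
  have a5 : (0 : ℝ) < d ^ 2 := by positivity
  have a6 := mul_le_mul_of_nonneg_left p2 a5.le
  nlinarith

/-- The upper bound. -/
theorem upper (d n : ℕ) (hd : 4 ≤ d) (hn : 50000 * (d : ℝ) ^ 3 * (3 * √3 / 2) ^ d ≤ n) :
    ∃ f : E d → E n, (∀ x y, dist x y = 1 → dist (f x) (f y) = 1) ∧
      ∃ x y, dist (f x) (f y) ≠ dist x y := by
  have d4 : (4 : ℝ) ≤ d := by exact_mod_cast hd
  have e : 3 * √3 / 2 = 2 * rho := by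
    unfold rho
    ring
  rw [e] at hn
  have B1 : 1 ≤ (2 * rho) ^ d := one_le_pow₀ (by nlinarith [rho_sq, rho_pos])
  obtain ⟨c, hc⟩ := colour (d := d) (by omega) _ (num hd _ (Nat.le_ceil _))
  have h1 := (Nat.ceil_lt_add_one
    (show (0 : ℝ) ≤ 30000 * (d : ℝ) ^ 2 * (2 * rho) ^ d by positivity)).le
  generalize ⌈30000 * (d : ℝ) ^ 2 * (2 * rho) ^ d⌉₊ = N at c hc h1
  generalize (2 * rho) ^ d = B at hn B1 h1
  have h2 : (d + 1) * N ≤ n := by
    have a1 : (1 : ℝ) ≤ d ^ 2 * B := one_le_mul_of_one_le_of_one_le (by nlinarith) B1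
    have a2 : (N : ℝ) ≤ 30001 * (d ^ 2 * B) := by linarith
    have a3 : ((d : ℝ) + 1) * N ≤ (5 / 4 * d) * (30001 * (d ^ 2 * B)) :=
      mul_le_mul (by linarith) a2 (by positivity) (by positivity)
    have a4 : (0 : ℝ) ≤ d * (d ^ 2 * B) := by positivity
    have : ((d : ℝ) + 1) * N ≤ n := by nlinarith
    exact_mod_cast this
  obtain ⟨g⟩ : Nonempty (Fin (d + 1) × Fin N ↪ Fin n) :=
    Function.Embedding.nonempty_of_card_le (by simpa using h2)
  exact map_of (by omega) (fun x => g (c x)) fun x y h hh => hc x y h (g.injective hh)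

end H75U
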