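import Mathlib

/-! Random centres: a large set without unit distances. -/

namespace H75U

open MeasureTheory Set Metric ProbabilityTheory
open scoped RealInnerProductSpace ENNReal

abbrev E (d : ℕ) := EuclideanSpace ℝ (Fin d)

variable {d m : ℕ}

/-- `x` is near the centre `i` and the danger ball holds no other centre. -/
def Good (r R : ℝ) (A : Fin m → E d) (x : E d) (i : Fin m) : Prop :=
  dist (A i) x < r ∧ ∀ j, j ≠ i → R < dist (A j) (A i + (3 / 2 : ℝ) • (x - A i))

/-- the critical radius. -/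
noncomputable def rho : ℝ := 3 * √3 / 4

theorem rho_sq : rho ^ 2 = 27 / 16 := by
  unfold rho
  rw [div_pow, mul_pow, Real.sq_sqrt (by norm_num)]
  norm_num

theorem rho_pos : 0 < rho := by
  unfold rho
  positivity

theorem half (u w : E d) (hu : ‖u‖ < 1 / 2) (h : rho < ‖w - (3 / 2 : ℝ) • u‖) :
    2 * ⟪w, u⟫ < ‖w‖ ^ 2 - ‖w‖ := by
  have h1 : rho ^ 2 < ‖w - (3 / 2 : ℝ) • u‖ ^ 2 := pow_lt_pow_left₀ h rho_pos.le (by norm_num)
  rw [rho_sq, norm_sub_sq_real, inner_smul_right, norm_smul, mul_pow, Real.norm_eq_abs,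
    sq_abs] at h1
  have h2 : ‖u‖ ^ 2 < (1 / 2) ^ 2 := pow_lt_pow_left₀ hu (norm_nonneg _) (by norm_num)
  nlinarith [sq_nonneg (‖w‖ - 3 / 2)]

theorem far {A : Fin m → E d} {x y : E d} {i j : Fin m} (hx : Good (1 / 2) rho A x i)
    (hy : Good (1 / 2) rho A y j) (hij : j ≠ i) : 1 < dist x y := by
  have a1 := half (x - A i) (A j - A i) (by rw [← dist_eq_norm, dist_comm]; exact hx.1)
    (by have := hx.2 j hij
        rwa [dist_eq_norm, ← sub_sub] at this)
  have a2 := half (y - A j) (A i - A j) (by rw [← dist_eq_norm, dist_comm]; exact hy.1)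
    (by have := hy.2 i hij.symm
        rwa [dist_eq_norm, ← sub_sub] at this)
  have e1 : A i - A j = -(A j - A i) := by abel
  have e2 : y - x = (A j - A i) + (y - A j) - (x - A i) := by abel
  rw [e1, norm_neg, inner_neg_left] at a2
  have a3 : ⟪A j - A i, y - x⟫ = ‖A j - A i‖ ^ 2 + ⟪A j - A i, y - A j⟫ - ⟪A j - A i, x - A i⟫ := by
    rw [e2, inner_sub_right, inner_add_right, real_inner_self_eq_norm_sq]
  have a4 := real_inner_le_norm (A j - A i) (y - x)
  rw [dist_comm, dist_eq_norm]
  by_contra hc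
  have a5 : ‖A j - A i‖ * ‖y - x‖ ≤ ‖A j - A i‖ * 1 :=
    mul_le_mul_of_nonneg_left (not_lt.1 hc) (norm_nonneg _)
  linarith

theorem ne_one {A : Fin m → E d} {x y : E d} {i j : Fin m} (hx : Good (1 / 2) rho A x i)
    (hy : Good (1 / 2) rho A y j) : dist x y ≠ 1 := by
  by_cases h : j = i
  · subst h
    have := dist_triangle_left x y (A j)
    linarith [hx.1, hy.1]
  · exact (far hx hy h).ne'

theorem Good.near {A : Fin m → E d} {x z : E d} {i : Fin m} {δ : ℝ}
    (h : Good (1 / 2 - δ) (rho + 3 / 2 * δ) A z i) (hz : dist z x ≤ δ) :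
    Good (1 / 2) rho A x i := by
  refine ⟨by linarith [h.1, dist_triangle (A i) z x], fun j hj => ?_⟩
  have h1 := h.2 j hj
  have h2 := dist_triangle (A j) (A i + (3 / 2 : ℝ) • (x - A i)) (A i + (3 / 2 : ℝ) • (z - A i))
  have h3 : dist (A i + (3 / 2 : ℝ) • (x - A i)) (A i + (3 / 2 : ℝ) • (z - A i))
      = 3 / 2 * dist z x := by
    rw [dist_add_left, dist_smul₀, dist_sub_right, dist_comm x z]
    norm_num
  linarith

theorem ball_real (hd : 0 < d) (x : E d) {r : ℝ} (hr : 0 ≤ r) :
    volume.real (closedBall x r) = r ^ d * volume.real (ball (0 : E d) 1) ∧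
      volume.real (ball x r) = r ^ d * volume.real (ball (0 : E d) 1) := by
  haveI : Nonempty (Fin d) := ⟨⟨0, hd⟩⟩
  constructor
  · rw [Measure.addHaar_real_closedBall _ _ hr]
    simp
  · rw [measureReal_def, Measure.addHaar_ball _ _ hr, ENNReal.toReal_mul,
      ENNReal.toReal_ofReal (by positivity)]
    simp [measureReal_def]

theorem meas_good (r R : ℝ) (x : E d) (i : Fin m) :
    MeasurableSet {A : Fin m → E d | Good r R A x i} := by
  have e : {A : Fin m → E d | Good r R A x i} = {A | dist (A i) x < r} ∩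
      ⋂ j, ⋂ (_ : j ≠ i), {A | R < dist (A j) (A i + (3 / 2 : ℝ) • (x - A i))} := by
    ext A
    simp [Good]
  rw [e]
  refine (isOpen_lt (by fun_prop) (by fun_prop)).measurableSet.inter
    (MeasurableSet.iInter fun j => MeasurableSet.iInter fun _ => ?_)
  exact (isOpen_lt (by fun_prop) (by fun_prop)).measurableSet

theorem one_good (ν : Measure (E d)) [IsProbabilityMeasure ν] (r R v : ℝ) (hv0 : 0 ≤ v) (x : E d)
    (hv : ∀ z, ν.real (closedBall z R) ≤ v) (i : Fin m) :
    ν.real (ball x r) * (1 - m * v)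
      ≤ (Measure.pi fun _ : Fin m => ν).real {A | Good r R A x i} := by
  set P := Measure.pi fun _ : Fin m => ν with hP
  have ev : ∀ k : Fin m, MeasurePreserving (fun A : Fin m → E d => A k) P ν := fun k =>
    measurePreserving_eval (fun _ : Fin m => ν) k
  let S : Set (E d × E d) :=
    {q | dist q.1 x < r} ∩ {q | dist q.2 (q.1 + (3 / 2 : ℝ) • (x - q.1)) ≤ R}
  have mS : MeasurableSet S := (isOpen_lt (by fun_prop) (by fun_prop)).measurableSet.inter
    (isClosed_le (by fun_prop) (by fun_prop)).measurableSet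
  have hS : (ν.prod ν).real S ≤ ν.real (ball x r) * v := by
    have h1 : (ν.prod ν) S ≤ ENNReal.ofReal v * ν (ball x r) := by
      rw [Measure.prod_apply mS, ← lintegral_indicator_const measurableSet_ball]
      refine lintegral_mono fun c => ?_
      by_cases hc : c ∈ ball x r
      · rw [indicator_of_mem hc]
        refine le_trans (measure_mono (t := closedBall (c + (3 / 2 : ℝ) • (x - c)) R)
          fun y hy => hy.2) ?_
        rw [← ofReal_measureReal]
        exact ENNReal.ofReal_le_ofReal (hv _)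
      · have : Prod.mk c ⁻¹' S = ∅ := eq_empty_of_forall_notMem fun y hy => hc hy.1
        simp [this]
    have h2 := ENNReal.toReal_mono (ENNReal.mul_ne_top ENNReal.ofReal_ne_top (measure_ne_top _ _)) h1
    rw [ENNReal.toReal_mul, ENNReal.toReal_ofReal hv0, mul_comm] at h2
    exact h2
  have pr : ∀ j, j ≠ i → P.real ((fun A : Fin m → E d => (A i, A j)) ⁻¹' S)
      ≤ ν.real (ball x r) * v := by
    intro j hj
    have hi : IndepFun (fun A : Fin m → E d => A i) (fun A => A j) P :=
      (iIndepFun_pi (μ := fun _ : Fin m => ν) (X := fun _ => id)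
        (fun _ => aemeasurable_id)).indepFun hj.symm
    have hm := hi.map_prod_eq_prod_map_map (ev i).measurable.aemeasurable
      (ev j).measurable.aemeasurable
    rw [(ev i).map_eq, (ev j).map_eq] at hm
    rw [← map_measureReal_apply ((ev i).measurable.prodMk (ev j).measurable) mS, hm]
    exact hS
  have sub : (fun A : Fin m → E d => A i) ⁻¹' ball x r ⊆ {A | Good r R A x i} ∪
      ⋃ j ∈ Finset.univ.erase i, (fun A : Fin m → E d => (A i, A j)) ⁻¹' S := by
    intro A hA
    by_cases hg : Good r R A x i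
    · exact Or.inl hg
    · right
      have : ¬ ∀ j, j ≠ i → R < dist (A j) (A i + (3 / 2 : ℝ) • (x - A i)) :=
        fun h => hg ⟨hA, h⟩
      push Not at this
      obtain ⟨j, hj, hj2⟩ := this
      exact mem_iUnion₂.2 ⟨j, Finset.mem_erase.2 ⟨hj, Finset.mem_univ j⟩, hA, hj2⟩
  have b1 : ν.real (ball x r) = P.real ((fun A : Fin m → E d => A i) ⁻¹' ball x r) :=
    ((ev i).measureReal_preimage measurableSet_ball.nullMeasurableSet).symm
  have b2 := (measureReal_mono sub (measure_ne_top P _)).trans (measureReal_union_le _ _)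
  have b3 := (measureReal_biUnion_finset_le (μ := P) (Finset.univ.erase i)
    (fun j => (fun A : Fin m → E d => (A i, A j)) ⁻¹' S)).trans
    (Finset.sum_le_card_nsmul _ _ _ fun j hj => pr j (Finset.mem_erase.1 hj).1)
  have b4 : ((Finset.univ.erase i).card : ℝ) ≤ m := by
    have := Finset.card_le_univ (Finset.univ.erase i)
    rw [Fintype.card_fin] at this
    exact_mod_cast this
  rw [nsmul_eq_mul] at b3
  have b5 := mul_le_mul_of_nonneg_right b4 (mul_nonneg (measureReal_nonneg (μ := ν)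
    (s := ball x r)) hv0)
  linarith

theorem some_good (ν : Measure (E d)) [IsProbabilityMeasure ν] (δ v : ℝ) (hδ : 0 ≤ δ)
    (hv0 : 0 ≤ v) (x : E d) (hv : ∀ z, ν.real (closedBall z (rho + 3 / 2 * δ)) ≤ v) :
    m * (ν.real (ball x (1 / 2 - δ)) * (1 - m * v)) ≤ (Measure.pi fun _ : Fin m => ν).real
      (⋃ i, {A | Good (1 / 2 - δ) (rho + 3 / 2 * δ) A x i}) := by
  rw [measureReal_iUnion_fintype _ (fun i => meas_good _ _ x i)]
  · have := Finset.card_nsmul_le_sum Finset.univ _ _
      fun (i : Fin m) _ => one_good ν (1 / 2 - δ) _ v hv0 x hv i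
    rwa [Finset.card_univ, Fintype.card_fin, nsmul_eq_mul] at this
  · intro i j hij
    refine disjoint_left.2 fun A h1 h2 => ?_
    have := far (Good.near (x := x) h1 (by simpa using hδ)) (Good.near (x := x) h2
      (by simpa using hδ)) hij.symm
    rw [dist_self] at this
    linarith

theorem avg {Ω α : Type*} [MeasurableSpace Ω] (P : Measure Ω) [IsProbabilityMeasure P]
    (G : α → Set Ω) (hG : ∀ x, MeasurableSet (G x)) (F : Finset α) (p : ℝ)
    (hp : ∀ x ∈ F, p ≤ P.real (G x)) [∀ ω x, Decidable (ω ∈ G x)] :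
    ∃ ω, ((F.filter fun x => ω ∉ G x).card : ℝ) ≤ (1 - p) * F.card := by
  have hi : ∀ x ∈ F, Integrable ((G x).indicator (1 : Ω → ℝ)) P := fun x _ =>
    (integrable_const (1 : ℝ)).indicator (hG x)
  obtain ⟨ω, h⟩ := exists_integral_le (integrable_finsetSum F hi)
  refine ⟨ω, ?_⟩
  rw [integral_finsetSum F hi] at h
  have h1 : (F.card : ℝ) * p ≤ ∑ x ∈ F, ∫ a, (G x).indicator (1 : Ω → ℝ) a ∂P := by
    rw [← nsmul_eq_mul]
    exact Finset.card_nsmul_le_sum _ _ _ fun x hx => by
      rw [integral_indicator_one (hG x)]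
      exact hp x hx
  have h2 : ∑ x ∈ F, (G x).indicator (1 : Ω → ℝ) ω = (F.filter fun x => ω ∈ G x).card := by
    rw [Finset.card_filter]
    push_cast
    exact Finset.sum_congr rfl fun x _ => by simp [indicator_apply]
  have h3 : ((F.filter fun x => ω ∈ G x).card : ℝ) + (F.filter fun x => ω ∉ G x).card
      = F.card := by exact_mod_cast Finset.card_filter_add_card_filter_not _
  linarith

theorem greedy {Ω α : Type*} [MeasurableSpace Ω] (P : Measure Ω) [IsProbabilityMeasure P]
    (G : α → Set Ω) (hG : ∀ x, MeasurableSet (G x)) (p : ℝ) (hp1 : p ≤ 1) (N : ℕ) :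
    ∀ F : Finset α, (∀ x ∈ F, p ≤ P.real (G x)) → (1 - p) ^ N * F.card < 1 →
      ∃ ω : Fin N → Ω, ∀ x ∈ F, ∃ k, ω k ∈ G x := by
  classical
  induction N with
  | zero =>
    intro F _ h
    have : F.card < 1 := by exact_mod_cast (by simpa using h : (F.card : ℝ) < 1)
    have h0 : F = ∅ := Finset.card_eq_zero.1 (by omega)
    exact ⟨Fin.elim0, by simp [h0]⟩
  | succ N ih =>
    intro F hp h
    obtain ⟨ω, hω⟩ := avg P G hG F p hp
    obtain ⟨ω', h'⟩ := ih (F.filter fun x => ω ∉ G x)
      (fun x hx => hp x (Finset.mem_filter.1 hx).1) (by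
        refine lt_of_le_of_lt (mul_le_mul_of_nonneg_left hω (pow_nonneg (by linarith) _)) ?_
        rwa [← mul_assoc, ← pow_succ])
    refine ⟨Fin.cons ω ω', fun x hx => ?_⟩
    by_cases hx2 : ω ∈ G x
    · exact ⟨0, hx2⟩
    · obtain ⟨k, hk⟩ := h' x (Finset.mem_filter.2 ⟨hx, hx2⟩)
      exact ⟨k.succ, hk⟩

/-- Few configurations serve all points of a finite set. -/
theorem cover (hd : 0 < d) (δ : ℝ) (h0 : 0 ≤ δ) (h1 : δ ≤ 1 / 2) (F : Finset (E d)) (N : ℕ)
    (hN : (1 - ((1 / 2 - δ) / (rho + 3 / 2 * δ)) ^ d / 8) ^ N * F.card < 1) :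
    ∃ (m : ℕ) (ω : Fin N → Fin m → E d), ∀ x ∈ F, ∃ k i,
      Good (1 / 2 - δ) (rho + 3 / 2 * δ) (ω k) x i := by
  obtain ⟨L, hL⟩ := (F.finite_toSet.isBounded).subset_ball (0 : E d)
  have hr := rho_pos
  set R := rho + 3 / 2 * δ with hR
  set r := 1 / 2 - δ with hr2
  have R0 : 0 < R := by positivity
  have r0 : 0 ≤ r := by linarith
  have rR : r ≤ R := by nlinarith [rho_sq]
  set T := |L| + 1 + 4 * R with hT
  have T0 : 0 < T := by positivity
  have u0 : 0 < volume.real (ball (0 : E d) 1) :=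
    ENNReal.toReal_pos (measure_ball_pos _ _ one_pos).ne' measure_ball_lt_top.ne
  haveI : IsProbabilityMeasure (volume[|ball (0 : E d) T]) :=
    cond_isProbabilityMeasure_of_finite (measure_ball_pos _ _ T0).ne' measure_ball_lt_top.ne
  have ca : ∀ s : Set (E d), (volume[|ball (0 : E d) T]).real s
      = volume.real (ball (0 : E d) T ∩ s) / (T ^ d * volume.real (ball (0 : E d) 1)) := by
    intro s
    rw [measureReal_def, cond_apply measurableSet_ball, ENNReal.toReal_mul, ENNReal.toReal_inv,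
      ← (ball_real hd 0 T0.le).2, div_eq_inv_mul]
    rfl
  have hv : ∀ z : E d, (volume[|ball (0 : E d) T]).real (closedBall z R) ≤ (R / T) ^ d := by
    intro z
    rw [ca, div_le_iff₀ (by positivity)]
    refine (measureReal_mono inter_subset_right measure_closedBall_lt_top.ne).trans ?_
    rw [(ball_real hd z R0.le).1, div_pow]
    apply le_of_eq
    field_simp
  have hq : ∀ x ∈ F, (volume[|ball (0 : E d) T]).real (ball x r) = (r / T) ^ d := by
    intro x hx
    have : ball x r ⊆ ball (0 : E d) T := ball_subset_ball' (by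
      have := mem_ball.1 (hL hx)
      linarith [le_abs_self L])
    rw [ca, inter_eq_right.2 this, (ball_real hd x r0).2, div_pow]
    field_simp
  have v0 : 0 < (R / T) ^ d := by positivity
  have v1 : (R / T) ^ d ≤ 1 / 4 := by
    have a : R / T ≤ 1 / 4 := by
      rw [div_le_iff₀ T0]
      linarith [abs_nonneg L]
    exact (pow_le_of_le_one (by positivity) (by linarith) hd.ne').trans a
  have e : (r / T) ^ d = (r / R) ^ d * (R / T) ^ d := by
    rw [← mul_pow]
    congr 1
    field_simp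
  generalize (R / T) ^ d = v at hv v0 v1 e
  have m1 : (⌊1 / (2 * v)⌋₊ : ℝ) * v ≤ 1 / 2 := by
    have := mul_le_mul_of_nonneg_right (Nat.floor_le (a := 1 / (2 * v)) (by positivity)) v0.le
    rwa [show 1 / (2 * v) * v = 1 / 2 by field_simp] at this
  have m2 : 1 / 4 ≤ (⌊1 / (2 * v)⌋₊ : ℝ) * v := by
    have := mul_le_mul_of_nonneg_right (Nat.lt_floor_add_one (1 / (2 * v))).le v0.le
    rw [show 1 / (2 * v) * v = 1 / 2 by field_simp] at this
    linarith
  generalize ⌊1 / (2 * v)⌋₊ = m at m1 m2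
  have p0 : 0 ≤ (r / R) ^ d := by positivity
  have p1 : (r / R) ^ d ≤ 1 := pow_le_one₀ (by positivity) ((div_le_one R0).2 rR)
  obtain ⟨ω, hω⟩ := greedy (Measure.pi fun _ : Fin m => volume[|ball (0 : E d) T])
    (fun x : E d => ⋃ i, {A | Good r R A x i})
    (fun x => MeasurableSet.iUnion fun i => meas_good _ _ x i) ((r / R) ^ d / 8) (by linarith) N F
    (fun x hx => by
      refine le_trans ?_ (some_good _ δ v h0 v0.le x hv)
      rw [hq x hx, e]
      have : 1 / 8 ≤ (m * v) * (1 - m * v) := by nlinarith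
      nlinarith [mul_le_mul_of_nonneg_left this p0]) hN
  refine ⟨m, ω, fun x hx => ?_⟩
  obtain ⟨k, hk⟩ := hω x hx
  obtain ⟨i, hi⟩ := mem_iUnion.1 hk
  exact ⟨k, i, hi⟩

end H75U
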